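import Pool.Agent.H695R3.PP.Stmts

set_option autoImplicit false

/-! Project H695-LP (MP_0eac64_mp), TaskCompl: completeness of the eigenvectors of a box. -/

open Finset

namespace Pool.Agent.H646R3.PP.Compl

open Pool.Agent.H695R3.PP

/-- the sites of the box -/
abbrev I (L : ℕ) : Type := {n : ℤ // n ∈ Finset.Icc (-(L : ℤ)) L}

/-- the matrix of the box -/
def H (V : ℤ → ℝ) (L : ℕ) : Matrix (I L) (I L) ℝ := Matrix.of fun n m =>
  (if m.1 = n.1 + 1 then 1 else 0) + (if m.1 = n.1 - 1 then 1 else 0) +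
    (if m.1 = n.1 then V n.1 else 0)

lemma H_herm (V : ℤ → ℝ) (L : ℕ) : (H V L).IsHermitian := by
  ext n m
  simp only [H, Matrix.conjTranspose_apply, Matrix.of_apply, star_trivial]
  have h1 : (n.1 = m.1 + 1) ↔ (m.1 = n.1 - 1) := by omega
  have h2 : (n.1 = m.1 - 1) ↔ (m.1 = n.1 + 1) := by omega
  rw [if_congr h1 rfl rfl, if_congr h2 rfl rfl]
  have h3 : (if n.1 = m.1 then V m.1 else 0) = if m.1 = n.1 then V n.1 else 0 := by
    by_cases h : n.1 = m.1
    · rw [if_pos h, if_pos h.symm, h]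
    · rw [if_neg h, if_neg (fun h' => h h'.symm)]
  rw [h3]
  ring

/-- extension by zero -/
noncomputable def ex {L : ℕ} (f : I L → ℝ) (n : ℤ) : ℝ :=
  if h : n ∈ Finset.Icc (-(L : ℤ)) L then f ⟨n, h⟩ else 0

lemma ex_coe {L : ℕ} (f : I L → ℝ) (n : I L) : ex f n.1 = f n := by
  unfold ex
  rw [dif_pos n.2]

lemma ex_off {L : ℕ} (f : I L → ℝ) {n : ℤ} (h : n ∉ Finset.Icc (-(L : ℤ)) L) : ex f n = 0 := by
  unfold ex
  rw [dif_neg h]

lemma sum_ex {L : ℕ} (f : I L → ℝ) (k : ℤ) (c : ℝ) :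
    ∑ m ∈ Finset.Icc (-(L : ℤ)) L, (if m = k then c * ex f m else 0) = c * ex f k := by
  rw [Finset.sum_ite_eq']
  split_ifs with h
  · rfl
  · rw [ex_off f h, mul_zero]

lemma mulVec_eq (V : ℤ → ℝ) {L : ℕ} (f : I L → ℝ) (n : I L) :
    (H V L).mulVec f n = ex f (n.1 + 1) + ex f (n.1 - 1) + V n.1 * ex f n.1 := by
  have h1 : (H V L).mulVec f n = ∑ m : I L, (fun m : ℤ => (if m = n.1 + 1 then 1 * ex f m else 0) +
      (if m = n.1 - 1 then 1 * ex f m else 0) + (if m = n.1 then V n.1 * ex f m else 0)) m.1 := by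
    rw [Matrix.mulVec, dotProduct]
    refine Finset.sum_congr rfl fun m _ => ?_
    simp only [H, Matrix.of_apply]
    rw [ex_coe, add_mul, add_mul, ite_mul, ite_mul, ite_mul, zero_mul]
  rw [h1, Finset.sum_coe_sort (Finset.Icc (-(L : ℤ)) L) (fun m : ℤ =>
    (if m = n.1 + 1 then 1 * ex f m else 0) +
      (if m = n.1 - 1 then 1 * ex f m else 0) + (if m = n.1 then V n.1 * ex f m else 0)),
    Finset.sum_add_distrib, Finset.sum_add_distrib, sum_ex, sum_ex, sum_ex, one_mul, one_mul]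

lemma card_I (L : ℕ) : Fintype.card (I L) = 2 * L + 1 := by
  rw [Fintype.card_coe, Int.card_Icc]
  omega

theorem taskCompl : TaskCompl := by
  classical
  intro V L
  have hH := H_herm V L
  let b := hH.eigenvectorBasis
  have hcard : Fintype.card (Fin (2 * L + 1)) = Fintype.card (I L) := by
    rw [card_I, Fintype.card_fin]
  let σ : Fin (2 * L + 1) ≃ I L := Fintype.equivOfCardEq hcard
  have hpars : ∀ c : Fin (2 * L + 1) → ℝ,
      ∑ n ∈ Finset.Icc (-(L : ℤ)) L, (∑ j, c j * ex (fun i => b (σ j) i) n) ^ 2 =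
        ∑ j, c j ^ 2 := by
    intro c
    have h1 : ∑ n ∈ Finset.Icc (-(L : ℤ)) L, (∑ j, c j * ex (fun i => b (σ j) i) n) ^ 2 =
        ∑ n : I L, (∑ j, c j * b (σ j) n) ^ 2 := by
      rw [← Finset.sum_coe_sort (Finset.Icc (-(L : ℤ)) L)
        (fun n : ℤ => (∑ j, c j * ex (fun i => b (σ j) i) n) ^ 2)]
      refine Finset.sum_congr rfl fun n _ => ?_
      simp only [ex_coe]
    have h2 : ∀ n : I L, ∑ j, c j * b (σ j) n = (∑ i : I L, c (σ.symm i) • b i) n := by
      intro n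
      rw [← σ.sum_comp (fun i => c (σ.symm i) • b i)]
      simp
    have h3 : ‖∑ i : I L, c (σ.symm i) • b i‖ ^ 2 = ∑ i : I L, c (σ.symm i) ^ 2 := by
      rw [← real_inner_self_eq_norm_sq, b.orthonormal.inner_sum]
      refine Finset.sum_congr rfl fun i _ => ?_
      simp [pow_two]
    rw [h1]
    simp_rw [h2]
    rw [← σ.symm.sum_comp (fun j => c j ^ 2), ← h3, EuclideanSpace.norm_sq_eq]
    refine Finset.sum_congr rfl fun n _ => ?_
    rw [Real.norm_eq_abs, sq_abs]
  refine ⟨fun j => hH.eigenvalues (σ j), fun j => ex (fun i => b (σ j) i), ?_, ?_, hpars⟩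
  · intro j
    refine ⟨?_, ?_, ?_⟩
    · intro n hn
      refine ex_off _ ?_
      rw [Finset.mem_Icc]
      omega
    · have h1 := hpars (Pi.single j 1)
      simp only [Pi.single_apply, ite_mul, one_mul, zero_mul, Finset.sum_ite_eq',
        Finset.mem_univ, if_true] at h1
      unfold nsq
      rw [h1]
      simp
    · intro n h1 h2
      have hn : n ∈ Finset.Icc (-(L : ℤ)) L := Finset.mem_Icc.2 ⟨h1, h2⟩
      have h3 := mulVec_eq V (fun i => b (σ j) i) ⟨n, hn⟩
      simp only at h3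
      rw [← h3]
      have h4 := hH.mulVec_eigenvectorBasis (σ j)
      have h5 := congrFun h4 ⟨n, hn⟩
      rw [show (fun i => b (σ j) i) = (⇑(hH.eigenvectorBasis (σ j)) : I L → ℝ) from rfl]
      refine h5.trans ?_
      simp only [Pi.smul_apply, smul_eq_mul]
      congr 1
      exact (ex_coe (fun i => b (σ j) i) ⟨n, hn⟩).symm
  · intro n
    have h0 : (0 : ℤ) ∈ Finset.Icc (-(L : ℤ)) L := by
      rw [Finset.mem_Icc]
      omega
    by_cases hn : n ∈ Finset.Icc (-(L : ℤ)) L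
    · have h1 := b.sum_repr' (EuclideanSpace.single (⟨0, h0⟩ : I L) (1 : ℝ))
      have h2 := congrArg (fun v : EuclideanSpace ℝ (I L) => v ⟨n, hn⟩) h1
      simp only [PiLp.single_apply] at h2
      rw [← σ.sum_comp] at h2
      have h3 : ∀ j, ex (fun i => b (σ j) i) 0 * ex (fun i => b (σ j) i) n =
          b (σ j) ⟨0, h0⟩ * b (σ j) ⟨n, hn⟩ := by
        intro j
        rw [← ex_coe (fun i => b (σ j) i) ⟨n, hn⟩, ← ex_coe (fun i => b (σ j) i) ⟨0, h0⟩]
      simp_rw [h3]
      have h4 : (if n = 0 then (1 : ℝ) else 0) =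
          if (⟨n, hn⟩ : I L) = ⟨0, h0⟩ then (1 : ℝ) else 0 := by
        simp only [Subtype.mk.injEq]
      rw [h4, ← h2]
      simp [EuclideanSpace.inner_single_right]
    · rw [if_neg (by rintro rfl; exact hn h0)]
      symm
      refine Finset.sum_eq_zero fun j _ => ?_
      simp only
      rw [ex_off _ hn, mul_zero]

end Pool.Agent.H646R3.PP.Compl
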